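import Pool.Agent.Helper57.TM1Defs
import Pool.Agent.Helper57.TM1.Classical
import Pool.Agent.Helper57.TM1.TypeG2
import Pool.Agent.Helper57.TM1.TypeF4
import Pool.Agent.Helper57.TM1.TypeE6
import Pool.Agent.Helper57.TM1.TypeE7
import Pool.Agent.Helper57.TM1.TypeE8

/-!
# The `t = -1` phenomenon for upper ideals of `Δ(1)`

For every `ℤ`-grading of every complex simple Lie algebra, the value at `t = -1` of the generating
polynomial of the upper ideals of `Δ(1)` is the number of self-dual upper ideals.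
-/

namespace Pool.Agent.Results.MP_1283eb_co.TMinusOne

open Pool.Agent.Helper57

theorem facts (n : ℕ) (M : Matrix (Fin n) (Fin n) ℤ) (hM : TM1Defs.IsSimpleCartan n M) :
    (∀ j, M j j = 2) ∧ (TM1.rootSet M).Finite ∧ TM1.SignCoh M ∧
      ∀ (ℓ : Fin n → ℕ) (w : Module.End ℤ (Fin n → ℤ)), TM1.IsLongest M ℓ w → TM1.EqAt M ℓ w := by
  open TM1 in
  cases hM with
  | A n h => exact ⟨(modelA n h).hM, (modelA n h).finite, (modelA n h).signCoh, A_eq n h⟩
  | B n h => exact ⟨(modelB n h).hM, (modelB n h).finite, (modelB n h).signCoh, B_eq n h⟩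
  | C n h => exact ⟨(modelC n h).hM, (modelC n h).finite, (modelC n h).signCoh, C_eq n h⟩
  | D n h => exact ⟨(modelD n h).hM, (modelD n h).finite, (modelD n h).signCoh, D_eq n h⟩
  | E₆ => exact ⟨DE6.data.hM, DE6.data.finite, DE6.data.signCoh, DE6.data.main⟩
  | E₇ => exact ⟨DE7.data.hM, DE7.data.finite, DE7.data.signCoh, DE7.data.main⟩
  | E₈ => exact ⟨DE8.data.hM, DE8.data.finite, DE8.data.signCoh, DE8.data.main⟩
  | F₄ => exact ⟨DF4.data.hM, DF4.data.finite, DF4.data.signCoh, DF4.data.main⟩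
  | G₂ => exact ⟨DG2.data.hM, DG2.data.finite, DG2.data.signCoh, DG2.data.main⟩

variable {n : ℕ}

theorem simpleRoot_eq (j : Fin n) : TM1Defs.simpleRoot j = (Pi.single j 1 : Fin n → ℤ) := by
  ext k; simp [TM1Defs.simpleRoot, Pi.single_apply]

theorem reflection_eq (M : Matrix (Fin n) (Fin n) ℤ) (j : Fin n) (c : Fin n → ℤ) :
    TM1Defs.reflection M j c = TM1.sRefl M j c := by
  ext k
  rw [TM1.sRefl_apply]
  show (if k = j then c k - ∑ i, c i * M i j else c k) =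
    c k - (∑ i, c i * M i j) * (Pi.single j 1 : Fin n → ℤ) k
  rw [Pi.single_apply]
  split_ifs <;> simp

theorem inWeyl_iff (M : Matrix (Fin n) (Fin n) ℤ) (J : Set (Fin n))
    (w : (Fin n → ℤ) → (Fin n → ℤ)) :
    TM1Defs.InWeyl M J w ↔ ∃ v ∈ TM1.weyl M J, (v : (Fin n → ℤ) → (Fin n → ℤ)) = w := by
  constructor
  · intro h
    induction h with
    | one => exact ⟨1, one_mem _, rfl⟩
    | mul j w hj _ ih =>
      obtain ⟨v, hv, rfl⟩ := ih
      refine ⟨TM1.sRefl M j * v, mul_mem (TM1.sRefl_mem M J j hj) hv, ?_⟩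
      funext c
      show TM1.sRefl M j (v c) = TM1Defs.reflection M j (v c)
      rw [reflection_eq]
  · rintro ⟨v, hv, rfl⟩
    refine Submonoid.closure_induction_left (s := TM1.sRefl M '' J)
      (motive := fun v _ => TM1Defs.InWeyl M J v) TM1Defs.InWeyl.one ?_ hv
    rintro _ ⟨j, hj, rfl⟩ y _ ih
    have h := TM1Defs.InWeyl.mul j _ hj ih
    have e : (fun c => TM1Defs.reflection M j (y c)) =
        ((TM1.sRefl M j * y : Module.End ℤ (Fin n → ℤ)) : (Fin n → ℤ) → (Fin n → ℤ)) := by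
      funext c
      rw [reflection_eq]; rfl
    rwa [e] at h

theorem roots_eq (M : Matrix (Fin n) (Fin n) ℤ) : TM1Defs.roots M = TM1.rootSet M := by
  ext γ
  constructor
  · rintro ⟨w, hw, j, rfl⟩
    obtain ⟨v, hv, rfl⟩ := (inWeyl_iff M _ w).1 hw
    exact ⟨v, hv, j, by rw [simpleRoot_eq]⟩
  · rintro ⟨v, hv, j, rfl⟩
    exact ⟨v, (inWeyl_iff M _ _).2 ⟨v, hv, rfl⟩, j, by rw [simpleRoot_eq]⟩

theorem Delta1_eq (M : Matrix (Fin n) (Fin n) ℤ) (ℓ : Fin n → ℕ) :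
    TM1Defs.Delta1 M ℓ = TM1.Delta1 M ℓ := by
  unfold TM1Defs.Delta1 TM1.Delta1
  rw [roots_eq]; rfl

theorem upper_iff (M : Matrix (Fin n) (Fin n) ℤ) (ℓ : Fin n → ℕ) (I : Set (Fin n → ℤ)) :
    TM1Defs.IsUpperIdeal M ℓ I ↔ I ∈ TM1.UpperIdeals M ℓ := by
  unfold TM1Defs.IsUpperIdeal TM1.UpperIdeals
  rw [Delta1_eq]; rfl

theorem idealPoly_eq (M : Matrix (Fin n) (Fin n) ℤ) (ℓ : Fin n → ℕ) :
    TM1Defs.idealPoly M ℓ = TM1.idealPoly M ℓ := by
  unfold TM1Defs.idealPoly TM1.idealPoly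
  have : {I | TM1Defs.IsUpperIdeal M ℓ I} = TM1.UpperIdeals M ℓ := by
    ext I; exact upper_iff M ℓ I
  rw [this]

theorem longest_iff (M : Matrix (Fin n) (Fin n) ℤ) (ℓ : Fin n → ℕ)
    (w : (Fin n → ℤ) → (Fin n → ℤ)) :
    TM1Defs.IsLongest M ℓ w ↔
      ∃ v, TM1.IsLongest M ℓ v ∧ (v : (Fin n → ℤ) → (Fin n → ℤ)) = w := by
  constructor
  · rintro ⟨h1, h2⟩
    obtain ⟨v, hv, rfl⟩ := (inWeyl_iff M _ w).1 h1
    refine ⟨v, ⟨hv, fun j hj => ?_⟩, rfl⟩
    have h3 := h2 j hj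
    rw [simpleRoot_eq] at h3
    exact h3
  · rintro ⟨v, ⟨hv, h2⟩, rfl⟩
    refine ⟨(inWeyl_iff M _ _).2 ⟨v, hv, rfl⟩, fun j hj => ?_⟩
    rw [simpleRoot_eq]
    exact h2 j hj

open TM1Defs in
/-- For every Cartan matrix of a complex simple Lie algebra and every labelling `ℓ` of the simple
roots by natural numbers: the root system is finite, each root has nonnegative or nonpositive
coordinates, `W(0)` has a unique longest element, and for it the value at `-1` of the polynomial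
`∑_I t^{#I}` over the upper ideals of `Δ(1)` is the number of upper ideals `I` with
`Δ(1) \ w(I) = I`. -/
theorem result (n : ℕ) (M : Matrix (Fin n) (Fin n) ℤ) (hM : IsSimpleCartan n M)
    (ℓ : Fin n → ℕ) :
    (roots M).Finite ∧ (∀ γ ∈ roots M, (∀ i, 0 ≤ γ i) ∨ (∀ i, γ i ≤ 0)) ∧
    (∃! w, IsLongest M ℓ w) ∧
    ∀ w, IsLongest M ℓ w → (idealPoly M ℓ).eval (-1) =
      ({I | IsUpperIdeal M ℓ I ∧ Delta1 M ℓ \ (w '' I) = I}.ncard : ℤ) := by
  obtain ⟨h2, hfin, hsc, hall⟩ := facts n M hM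
  rw [roots_eq]
  refine ⟨hfin, hsc, ?_, fun w hw => ?_⟩
  · obtain ⟨w, hw, hneg⟩ := TM1.longest_exists M h2 hfin hsc {j | ℓ j = 0}
    refine ⟨w, (longest_iff M ℓ _).2 ⟨w, ⟨hw, hneg⟩, rfl⟩, ?_⟩
    intro w' hw'
    obtain ⟨v, ⟨hv, hvneg⟩, rfl⟩ := (longest_iff M ℓ _).1 hw'
    rw [TM1.longest_unique M h2 hfin hsc {j | ℓ j = 0} v w hv hw hvneg hneg]
  · obtain ⟨v, hv, rfl⟩ := (longest_iff M ℓ _).1 hw
    have h := hall ℓ v hv
    unfold TM1.EqAt at h
    rw [idealPoly_eq, h, Delta1_eq]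
    simp only [upper_iff]

end Pool.Agent.Results.MP_1283eb_co.TMinusOne
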